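import Mathlib

set_option autoImplicit false

open Filter Topology Set Complex Bornology

namespace Pool.Agent.Results.MP_51e19e_an.Yes

theorem blas {M : ℝ} (S : Finset ℝ) {F : ℂ → ℂ} (hF : DifferentiableOn ℂ F {z | -1 / 8 < z.re})
    (hM : ∀ z : ℂ, 0 ≤ z.re → ‖F z‖ ≤ M) (hS : ∀ a ∈ S, 1 / 4 < a ∧ F a = 0) :
    ‖F (1 / 4 : ℝ)‖ ≤ M * Real.exp (-∑ a ∈ S, 1 / 2 / (a + 1 / 4)) := by
  induction S using Finset.induction_on generalizing F with
  | empty => simpa using hM (1 / 4 : ℝ) (by simp)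
  | insert a S ha ih =>
    obtain ⟨a1, a2⟩ := hS a (Finset.mem_insert_self _ _)
    have o : IsOpen {z : ℂ | -1 / 8 < z.re} := isOpen_lt continuous_const continuous_re
    have hG : DifferentiableOn ℂ (fun z => dslope F a z * (z + a)) {z | -1 / 8 < z.re} :=
      ((differentiableOn_dslope (o.mem_nhds (by simp; linarith))).2 hF).mul (by fun_prop)
    have e : ∀ z : ℂ, z ≠ a → ‖dslope F a z * (z + a)‖ * ‖z - a‖ = ‖F z‖ * ‖z + a‖ := fun z hz => by
      rw [dslope_of_ne _ hz, slope_def_field, a2, ← norm_mul, ← norm_mul]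
      congr 1
      field_simp [sub_ne_zero.2 hz]
      ring
    have M0 : 0 ≤ M := (norm_nonneg _).trans (hM 0 le_rfl)
    have far : ∀ z : ℂ, 0 ≤ z.re → 2 * a ≤ ‖z‖ → ‖dslope F a z * (z + a)‖ ≤ 3 * M := fun z h1 h2 => by
      have n : ‖(a : ℂ)‖ = a := by rw [norm_real, Real.norm_of_nonneg (by linarith)]
      have h3 := norm_sub_norm_le z a
      have h4 := norm_add_le z a
      have h5 := e z (by rintro rfl; linarith)
      have h6 := mul_le_mul (hM z h1) (show ‖z + a‖ ≤ 3 * ‖z - a‖ by linarith) (norm_nonneg _) M0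
      exact le_of_mul_le_mul_right (by linarith) (show 0 < ‖z - a‖ by linarith)
    have := ih hG (fun z hz => PhragmenLindelof.right_half_plane_of_bounded_on_real
      (f := fun z => dslope F a z * (z + a))
      (DifferentiableOn.diffContOnCl (hG.mono ?_)) ⟨0, two_pos, 0, ?_⟩ ⟨3 * M, ?_⟩ ?_ hz)
      fun b hb => ⟨(hS b (Finset.mem_insert_of_mem hb)).1, ?_⟩
    · have h5 := e (1 / 4 : ℝ) (by exact_mod_cast a1.ne)
      rw [← ofReal_sub, ← ofReal_add, norm_real, norm_real, Real.norm_of_nonpos (by linarith),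
        Real.norm_of_nonneg (by linarith)] at h5
      rw [Finset.sum_insert ha, neg_add, Real.exp_add, mul_left_comm, ← ofReal_add] at *
      refine le_trans ?_ (mul_le_mul (Real.add_one_le_exp _) this (norm_nonneg _) (Real.exp_pos _).le)
      refine le_of_mul_le_mul_right (le_of_eq ?_) (show 0 < 1 / 4 + a by linarith)
      rw [← h5]
      field_simp
      ring
    · rw [closure_setOfPred_lt_re]
      exact fun z (hz : 0 ≤ z.re) => show -1 / 8 < z.re by linarith
    · refine Asymptotics.IsBigO.of_bound (3 * M) ?_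
      rw [eventually_inf_principal]
      filter_upwards [tendsto_norm_cobounded_atTop.eventually_ge_atTop (2 * a)] with z h1 h2
      simpa using far z (le_of_lt h2) h1
    · rw [eventually_map]
      filter_upwards [eventually_ge_atTop (2 * a)] with x hx
      exact far x (by simp; linarith) (hx.trans (by simpa using le_abs_self x))
    · intro x
      have n : (x * I : ℂ) ≠ a := fun k => by
        have := congrArg re k
        simp at this; linarith
      have h5 := e _ n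
      have : ‖x * I + (a : ℂ)‖ = ‖x * I - (a : ℂ)‖ := by
        rw [Complex.norm_eq_sqrt_sq_add_sq, Complex.norm_eq_sqrt_sq_add_sq]; simp
      rw [this] at h5
      exact (mul_right_cancel₀ (norm_ne_zero_iff.2 (sub_ne_zero.2 n)) h5).trans_le (hM _ (by simp))
    · have n : (b : ℂ) ≠ a := by
        rintro k
        exact ha (ofReal_injective k ▸ hb)
      have h5 := e b n
      rw [(hS b (Finset.mem_insert_of_mem hb)).2, norm_zero, zero_mul] at h5
      exact norm_eq_zero.1 ((mul_eq_zero.1 h5).resolve_right (norm_ne_zero_iff.2 (sub_ne_zero.2 n)))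

noncomputable def f (a : ℕ → ℝ) (t : ℝ) : ℝ := ∑' n : ℕ, a n / (t ^ 2 + (n + 1) ^ 2)

theorem sm : Summable fun n : ℕ => 1 / ((n : ℝ) + 1) ^ 2 := by
  exact_mod_cast (summable_nat_add_iff 1).2 hasSum_zeta_two.summable

theorem small {a : ℕ → ℝ} (ha : ∀ n, |a n| = 1) {t : ℝ} (ht : |t| ≤ 1 / 2) : f a t ≠ 0 := by
  have b : ∀ n : ℕ, ‖a n / (t ^ 2 + (n + 1) ^ 2)‖ ≤ 1 / ((n : ℝ) + 1) ^ 2 := fun n => by
    rw [Real.norm_eq_abs, abs_div, ha, abs_of_pos (by positivity)]
    exact one_div_le_one_div_of_le (by positivity) (by nlinarith)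
  have h1 := (hasSum_nat_add_iff' 2).2 hasSum_zeta_two
  have h2 := tsum_of_norm_bounded h1 fun n => (b (n + 1)).trans_eq (by push_cast; ring_nf)
  rw [f, (Summable.of_norm_bounded sm b).tsum_eq_zero_add]
  intro k
  rw [eq_neg_of_add_eq_zero_right k, norm_neg, Real.norm_eq_abs, abs_div, ha, abs_of_pos (by positivity),
    div_le_iff₀ (by positivity)] at h2
  simp [Finset.sum_range_succ] at h2
  have := sq_abs t ▸ pow_le_pow_left₀ (abs_nonneg t) ht 2
  have : Real.pi ^ 2 < 10 := by nlinarith [Real.pi_lt_d2, Real.pi_pos]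
  nlinarith

theorem key {a : ℕ → ℝ} (ha : ∀ n, |a n| = 1) :
    ∃ K, ∀ S : Finset ℝ, (∀ t ∈ S, 1 / 2 < t ∧ f a t = 0) → ∑ t ∈ S, 1 / t ≤ K := by
  let G := fun (n : ℕ) (z : ℂ) => (a n : ℂ) / (((z + 1 / 4) ^ 2 + (n + 1) ^ 2) * (z + 5 / 4) ^ 2)
  have lb : ∀ (n : ℕ) (z : ℂ), -1 / 8 < z.re → ((n : ℝ) + 1) ^ 2 ≤
      64 * ‖((z + 1 / 4) ^ 2 + (n + 1) ^ 2) * (z + 5 / 4) ^ 2‖ := fun n z hz => by
    have h1 : 1 / 64 ≤ ‖(z + 1 / 4) ^ 2 + (n + 1) ^ 2‖ := by
      rw [show (z + 1 / 4) ^ 2 + (n + 1) ^ 2 = (z + 1 / 4 + (n + 1 : ℝ) * I) *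
        (z + 1 / 4 - (n + 1 : ℝ) * I) by push_cast; linear_combination (n + 1 : ℂ) ^ 2 * I_sq,
        norm_mul]
      have a1 := re_le_norm (z + 1 / 4 + (n + 1 : ℝ) * I)
      have a2 := re_le_norm (z + 1 / 4 - (n + 1 : ℝ) * I)
      simp only [add_re, sub_re, mul_re, I_re, I_im, ofReal_im, div_ofNat_re, one_re] at a1 a2
      nlinarith
    have h2 := norm_sub_le ((z + 1 / 4) ^ 2 + (n + 1) ^ 2) ((z + 1 / 4) ^ 2)
    rw [add_sub_cancel_left, norm_pow, norm_pow, show (n + 1 : ℂ) = (n + 1 : ℝ) by simp, norm_real,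
      Real.norm_of_nonneg (by positivity), show ((n + 1 : ℝ) : ℂ) = n + 1 by simp] at h2
    have h3 : 1 + ‖z + 1 / 4‖ ^ 2 ≤ ‖z + 5 / 4‖ ^ 2 := by
      simp only [Complex.sq_norm, normSq_apply, add_re, add_im, div_ofNat_re, div_ofNat_im, one_re,
        one_im, re_ofNat, im_ofNat]
      nlinarith
    rw [norm_mul, norm_pow]
    nlinarith [sq_nonneg ‖z + 1 / 4‖]
  have ne : ∀ (n : ℕ) (z : ℂ), -1 / 8 < z.re →
      ((z + 1 / 4) ^ 2 + (n + 1) ^ 2) * (z + 5 / 4) ^ 2 ≠ 0 := fun n z hz k => by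
    have := lb n z hz
    rw [k, norm_zero] at this
    nlinarith [n.cast_nonneg (α := ℝ)]
  have b : ∀ (n : ℕ) (z : ℂ), -1 / 8 < z.re → ‖G n z‖ ≤ 64 * (1 / ((n : ℝ) + 1) ^ 2) :=
    fun n z hz => by
      rw [norm_div, norm_real, Real.norm_eq_abs, ha, mul_one_div,
        div_le_div_iff₀ (norm_pos_iff.2 (ne n z hz)) (by positivity), one_mul]
      exact lb n z hz
  have e : ∀ x : ℝ, ∑' n, G n x = (f a (x + 1 / 4) / (x + 5 / 4) ^ 2 : ℝ) := fun x => by
    rw [f, ← tsum_div_const, ofReal_tsum]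
    congr 1
    funext n
    push_cast
    rw [div_div]
  have p : 0 < ‖∑' n, G n (1 / 4 : ℝ)‖ := by
    rw [e, norm_pos_iff, ofReal_ne_zero]
    exact div_ne_zero (small ha (by norm_num [abs_of_pos])) (by norm_num)
  set M := ∑' n : ℕ, 64 * (1 / ((n : ℝ) + 1) ^ 2)
  refine ⟨2 * (M / ‖∑' n, G n (1 / 4 : ℝ)‖), fun S hS => ?_⟩
  have := blas (M := M) (F := fun z => ∑' n, G n z) (S.image (· - 1 / 4))
    (differentiableOn_tsum_of_summable_norm (F := G)
    (sm.mul_left 64) (fun n => (differentiableOn_const _).div (by fun_prop) (ne n))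
    (isOpen_lt continuous_const continuous_re) b)
    (fun z hz => tsum_of_norm_bounded (sm.mul_left 64).hasSum fun n => b n z (by linarith))
    (by
      simp only [Finset.forall_mem_image]
      intro t ht
      exact ⟨by linarith [(hS t ht).1], by rw [e, sub_add_cancel, (hS t ht).2]; simp⟩)
  rw [Finset.sum_image sub_left_injective.injOn, Real.exp_neg, ← div_eq_mul_inv,
    le_div_iff₀ (Real.exp_pos _), ← le_div_iff₀' p] at this
  have q : ∑ t ∈ S, 1 / 2 / (t - 1 / 4 + 1 / 4) = (∑ t ∈ S, 1 / t) / 2 := by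
    rw [Finset.sum_div]; congr 1; funext t; ring
  linarith [Real.add_one_le_exp (∑ t ∈ S, 1 / 2 / (t - 1 / 4 + 1 / 4))]

theorem result (a : ℕ → ℝ) (ha : ∀ n, a n = 1 ∨ a n = -1) :
    (∀ X : ℝ, {t : ℝ | |t| < X ∧ f a t = 0}.Finite) ∧
    Tendsto (fun X : ℝ => ({t : ℝ | |t| < X ∧ f a t = 0}.ncard : ℝ) / X) atTop (𝓝 0) := by
  classical
  have ha : ∀ n, |a n| = 1 := fun n => by rcases ha n with h | h <;> simp [h]
  obtain ⟨K, hK⟩ := key ha
  let h := fun t : ℝ => if 1 / 2 < t ∧ f a t = 0 then 1 / t else 0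
  have h0 : ∀ t, 0 ≤ h t := fun t => by
    simp only [h]; split_ifs with k
    exacts [div_nonneg zero_le_one (by linarith [k.1]), le_rfl]
  have sh : Summable h := summable_of_sum_le h0 fun S => by
    rw [← Finset.sum_filter]; exact hK _ fun t ht => (Finset.mem_filter.1 ht).2
  have s2 : Summable fun t => h t + h (-t) := sh.add ((Equiv.neg ℝ).summable_iff.2 sh)
  have lb : ∀ X t, |t| < X → f a t = 0 → 1 / X ≤ h t + h (-t) := fun X t h1 h2 => by
    have h3 : 1 / 2 < |t| := by by_contra! k; exact small ha k h2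
    refine (one_div_le_one_div_of_le (by linarith) h1.le).trans ?_
    rcases abs_choice t with k | k <;> rw [k] at h3 ⊢
    · exact le_add_of_le_of_nonneg (if_pos ⟨h3, h2⟩).ge (h0 _)
    · exact le_add_of_nonneg_of_le (h0 _) (if_pos ⟨h3, by simpa [f] using h2⟩).ge
  have fin : ∀ X : ℝ, {t : ℝ | |t| < X ∧ f a t = 0}.Finite := fun X => by
    rcases le_or_gt X 0 with k | k
    · exact finite_empty.subset fun t ht => (ht.1.trans_le k).not_ge (abs_nonneg t)
    · exact (eventually_cofinite.1 (s2.tendsto_cofinite_zero.eventually_lt_const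
        (one_div_pos.2 k))).subset fun t ht => (lb X t ht.1 ht.2).not_gt
  refine ⟨fin, ?_⟩
  have := tendsto_tsum_of_dominated_convergence (𝓕 := atTop) (g := fun _ => (0 : ℝ))
    (f := fun X t => if |t| < X ∧ f a t = 0 then 1 / X else 0) s2
    (fun t => squeeze_zero_norm' ((eventually_ge_atTop 0).mono fun X hX => by
      split_ifs <;> simp [abs_of_nonneg, hX]) tendsto_inv_atTop_zero)
    ((eventually_ge_atTop 0).mono fun X hX t => by
      split_ifs with k
      · rw [Real.norm_of_nonneg (by positivity)]; exact lb X t k.1 k.2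
      · simpa using add_nonneg (h0 _) (h0 _))
  rw [tsum_zero] at this
  refine this.congr fun X => ?_
  rw [tsum_eq_sum (s := (fin X).toFinset) fun t ht => if_neg (by simpa using ht),
    Finset.sum_congr rfl fun t ht => if_pos (by simpa using ht), Finset.sum_const,
    ncard_eq_toFinset_card _ (fin X), nsmul_eq_mul, mul_one_div]

end Pool.Agent.Results.MP_51e19e_an.Yes
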